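import Pool.Agent.R677.AZ.Final

/-!
# MP_f3d5fe_al: the order of a nonabelian `p`-group is bounded by a function of the average number
of zeros in its character table
-/

namespace Pool.Agent.Results.MP_f3d5fe_al.OrderBoundedByAnz

open Pool.Agent.R677.AZ

/-- There is one function `f : ℝ → ℝ` such that `|G| ≤ f (anz G)` for every prime `p` and every
nonabelian finite `p`-group `G`. -/
theorem result : ∃ f : ℝ → ℝ, ∀ (G : Type) [Group G] [Finite G] (p : ℕ), p.Prime →
    IsPGroup p G → (¬ ∀ x y : G, x * y = y * x) → (Nat.card G : ℝ) ≤ f (anz G) :=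
  main

end Pool.Agent.Results.MP_f3d5fe_al.OrderBoundedByAnz
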